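import Pool.Agent.Helper40.Nm.Goals

/-! Splitting of a quotient of abelian groups. -/

namespace Pool.Agent.Helper45.Nm

open Pool.Agent.Helper40.Nm

theorem fga : FGA := by
  classical
  intro P _ P0 P1 hP10 hfg hlift
  obtain ⟨ι, j, hι, hj, p, hp, e, ⟨f⟩⟩ :=
    CommGroup.equiv_free_prod_prod_multiplicative_zmod (P ⧸ P0)
  -- the generators
  set qf : j ⊕ ι → (j → Multiplicative ℤ) × ((i : ι) → Multiplicative (ZMod (p i ^ e i))) :=
    Sum.elim (fun c => (Pi.mulSingle c (Multiplicative.ofAdd 1), 1))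
      (fun i => (1, Pi.mulSingle i (Multiplicative.ofAdd 1))) with hqf
  have hform : ∀ n : j ⊕ ι → ℤ, ∏ a, qf a ^ n a =
      (fun c => Multiplicative.ofAdd (n (Sum.inl c)),
        fun i => Multiplicative.ofAdd ((n (Sum.inr i) : ℤ) : ZMod (p i ^ e i))) := by
    intro n
    rw [Fintype.prod_sum_type]
    refine Prod.ext ?_ ?_
    · funext c
      rw [Prod.fst_mul, Prod.fst_prod, Prod.fst_prod, Pi.mul_apply, Finset.prod_apply,
        Finset.prod_apply]
      have h2 : ∏ i : ι, ((qf (Sum.inr i) ^ n (Sum.inr i)).1 c) = 1 := by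
        refine Finset.prod_eq_one fun i _ => ?_
        simp [hqf]
      rw [h2, mul_one, Finset.prod_eq_single c]
      · simp [hqf, ← ofAdd_zsmul]
      · intro d _ hd
        simp [hqf, Pi.mulSingle_apply, hd.symm]
      · intro h; exact absurd (Finset.mem_univ _) h
    · funext i
      rw [Prod.snd_mul, Prod.snd_prod, Prod.snd_prod, Pi.mul_apply, Finset.prod_apply,
        Finset.prod_apply]
      have h2 : ∏ c : j, ((qf (Sum.inl c) ^ n (Sum.inl c)).2 i) = 1 := by
        refine Finset.prod_eq_one fun c _ => ?_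
        simp [hqf]
      rw [h2, one_mul, Finset.prod_eq_single i]
      · simp [hqf, ← ofAdd_zsmul]
      · intro d _ hd
        simp [hqf, Pi.mulSingle_eq_of_ne hd.symm]
      · intro h; exact absurd (Finset.mem_univ _) h
  -- lifts
  have hex : ∀ a : j ⊕ ι, ∃ s : P, (QuotientGroup.mk s : P ⧸ P0) = f.symm (qf a) ∧
      ∀ i, a = Sum.inr i → s ^ (p i ^ e i) ∈ P1 := by
    intro a
    obtain ⟨s, hs⟩ := QuotientGroup.mk_surjective (f.symm (qf a))
    rcases a with c | i
    · exact ⟨s, hs, fun i h => absurd h (by simp)⟩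
    · have h1 : s ^ (p i ^ e i) ∈ P0 := by
        rw [← QuotientGroup.eq_one_iff, QuotientGroup.mk_pow, hs, ← map_pow]
        have : qf (Sum.inr i) ^ (p i ^ e i) = 1 := by
          refine Prod.ext ?_ ?_
          · simp [hqf]
          · funext i'
            by_cases h : i' = i
            · subst h
              simp [hqf, ← ofAdd_nsmul]
            · simp [hqf, Pi.mulSingle_eq_of_ne h]
        rw [this, map_one]
      obtain ⟨s', hs', hs''⟩ := hlift (p i) (e i) s (hp i) h1
      refine ⟨s', ?_, fun i' h => ?_⟩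
      · rw [← hs]
        exact ((QuotientGroup.eq_iff_div_mem).mpr hs').symm
      · simp only [Sum.inr.injEq] at h
        subst h
        exact hs''
  choose s hs1 hs2 using hex
  let Λ : Subgroup P :=
    { carrier := {t | ∃ n : j ⊕ ι → ℤ, t = ∏ a, s a ^ n a}
      mul_mem' := by
        rintro _ _ ⟨n, rfl⟩ ⟨m, rfl⟩
        exact ⟨n + m, by simp [Finset.prod_mul_distrib, zpow_add]⟩
      one_mem' := ⟨0, by simp⟩
      inv_mem' := by
        rintro _ ⟨n, rfl⟩
        exact ⟨-n, by simp⟩ }
  have hmk : ∀ n : j ⊕ ι → ℤ, f (QuotientGroup.mk (∏ a, s a ^ n a) : P ⧸ P0) =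
      (fun c => Multiplicative.ofAdd (n (Sum.inl c)),
        fun i => Multiplicative.ofAdd ((n (Sum.inr i) : ℤ) : ZMod (p i ^ e i))) := by
    intro n
    rw [← hform n, QuotientGroup.mk_prod, map_prod]
    refine Finset.prod_congr rfl fun a _ => ?_
    rw [QuotientGroup.mk_zpow, hs1, map_zpow, MulEquiv.apply_symm_apply]
  refine ⟨Λ, fun t => ?_, ?_⟩
  · -- surjectivity
    have hc : ∀ i : ι, ∃ m : ℤ, (m : ZMod (p i ^ e i)) =
        Multiplicative.toAdd ((f (QuotientGroup.mk t)).2 i) := fun i =>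
      ZMod.intCast_surjective _
    choose m hm using hc
    refine ⟨∏ a, s a ^ (Sum.elim (fun c => Multiplicative.toAdd ((f (QuotientGroup.mk t)).1 c)) m a),
      ⟨_, rfl⟩, ?_⟩
    rw [← QuotientGroup.eq_iff_div_mem]
    apply f.injective
    rw [hmk]
    refine Prod.ext ?_ ?_
    · funext c; simp
    · funext i
      simp only [Sum.elim_inr]
      rw [hm]; simp
  · rintro t ⟨⟨n, rfl⟩, ht⟩
    have h1 : (QuotientGroup.mk (∏ a, s a ^ n a) : P ⧸ P0) = 1 := (QuotientGroup.eq_one_iff _).mpr ht
    have h2 := hmk n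
    rw [h1, map_one] at h2
    refine Subgroup.prod_mem _ fun a _ => ?_
    rcases a with c | i
    · have h3 := congrFun (congrArg Prod.fst h2) c
      have h4 : n (Sum.inl c) = 0 := by
        have h5 : (Multiplicative.ofAdd (0 : ℤ)) = Multiplicative.ofAdd (n (Sum.inl c)) := by
          simpa using h3
        exact (Multiplicative.ofAdd.injective h5).symm
      rw [h4, zpow_zero]; exact one_mem _
    · have h3 := congrFun (congrArg Prod.snd h2) i
      have h4 : ((n (Sum.inr i) : ℤ) : ZMod (p i ^ e i)) = 0 := by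
        have h5 : Multiplicative.ofAdd (0 : ZMod (p i ^ e i)) =
            Multiplicative.ofAdd ((n (Sum.inr i) : ℤ) : ZMod (p i ^ e i)) := by
          simpa using h3
        exact (Multiplicative.ofAdd.injective h5).symm
      rw [ZMod.intCast_zmod_eq_zero_iff_dvd] at h4
      obtain ⟨c, hc⟩ := h4
      rw [hc, zpow_mul, zpow_natCast]
      exact Subgroup.zpow_mem _ (hs2 (Sum.inr i) i rfl) c

end Pool.Agent.Helper45.Nm
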